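import Pool.Agent.H87.SN.Targets

/-!
# snk_modules row IN1 (helper2): the weight of type (I) is integrable
-/

set_option autoImplicit false

namespace Pool.Agent.H2.SN

open Pool.Agent.H87.SN
open MeasureTheory Metric Set Filter Topology
open scoped ContDiff RealInnerProductSpace

theorem continuous_coord {n : ℕ} (i : Fin n) : Continuous (fun x : E n => x i) :=
  (continuous_apply i).comp (PiLp.continuous_ofLp 2 _)

theorem continuous_rho {d : ℕ} : Continuous (rho : E (d + 2) → ℝ) :=
  Real.continuous_sqrt.comp (((continuous_coord 0).pow 2).add ((continuous_coord 1).pow 2))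

theorem continuous_zp {d : ℕ} : Continuous (zp : E (d + 2) → E d) :=
  (PiLp.continuous_toLp 2 _).comp (continuous_pi fun i => continuous_coord i.succ.succ)

theorem norm_sq_split {d : ℕ} (x : E (d + 2)) : ‖x‖ ^ 2 = rho x ^ 2 + ‖zp x‖ ^ 2 := by
  rw [EuclideanSpace.norm_sq_eq, EuclideanSpace.norm_sq_eq, Fin.sum_univ_succ, Fin.sum_univ_succ]
  have h1 : rho x ^ 2 = x 0 ^ 2 + x 1 ^ 2 := by
    unfold rho
    exact Real.sq_sqrt (by positivity)
  rw [h1]
  have h2 : ∀ i : Fin d, (zp x) i = x i.succ.succ := fun _ => rfl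
  simp only [h2, Real.norm_eq_abs, sq_abs]
  have h3 : (Fin.succ (0 : Fin (d + 1))) = (1 : Fin (d + 2)) := rfl
  rw [h3]
  ring

theorem rho_nonneg {d : ℕ} (x : E (d + 2)) : 0 ≤ rho x := Real.sqrt_nonneg _

/-- the first part of the inner integral -/
theorem lint_rpow {α : ℝ} (hα : 0 < α) :
    ∫⁻ s in Ioo (0 : ℝ) 1, ENNReal.ofReal (s ^ (α - 1)) = ENNReal.ofReal (1 / α) := by
  have hint : IntegrableOn (fun s : ℝ => s ^ (α - 1)) (Ioc 0 1) := by
    have h1 := intervalIntegral.intervalIntegrable_rpow' (a := 0) (b := 1)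
      (by linarith : -1 < α - 1)
    rwa [intervalIntegrable_iff_integrableOn_Ioc_of_le zero_le_one] at h1
  have hint2 : IntegrableOn (fun s : ℝ => s ^ (α - 1)) (Ioo 0 1) :=
    hint.mono_set Ioo_subset_Ioc_self
  rw [← ofReal_integral_eq_lintegral_ofReal hint2]
  · congr 1
    rw [← integral_Ioc_eq_integral_Ioo, ← intervalIntegral.integral_of_le zero_le_one,
      integral_rpow (Or.inl (by linarith))]
    have h2 : α - 1 + 1 = α := by ring
    rw [h2, Real.one_rpow, Real.zero_rpow hα.ne', sub_zero]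
  · refine (ae_restrict_iff' measurableSet_Ioo).2 (Eventually.of_forall fun s hs => ?_)
    exact Real.rpow_nonneg hs.1.le _

/-- the second part of the inner integral -/
theorem lint_inv_sq {c : ℝ} (hc : 0 < c) :
    ∫⁻ s in Ioi c, ENNReal.ofReal (s ^ (-2 : ℝ)) = ENNReal.ofReal (1 / c) := by
  have hint := integrableOn_Ioi_rpow_of_lt (by norm_num : (-2 : ℝ) < -1) hc
  rw [← ofReal_integral_eq_lintegral_ofReal hint]
  · congr 1
    rw [integral_Ioi_rpow_of_lt (by norm_num : (-2 : ℝ) < -1) hc]
    have h2 : (-2 : ℝ) + 1 = -1 := by norm_num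
    rw [h2, Real.rpow_neg_one]
    field_simp
  · refine (ae_restrict_iff' measurableSet_Ioi).2 (Eventually.of_forall fun s hs => ?_)
    exact Real.rpow_nonneg (hc.trans hs).le _

theorem inner_bound {α C ρ : ℝ} (hα : 0 < α) (hC : 0 ≤ C) (hρ : 0 < ρ) :
    ∫⁻ s in Ioo (2 * ρ) 1, ENNReal.ofReal (2 * Real.pi * s) *
      ENNReal.ofReal (C * (s ^ 3)⁻¹ * (s ^ (1 + α) + ρ)) ≤
      ENNReal.ofReal (2 * Real.pi * C) * (ENNReal.ofReal (1 / α) + ENNReal.ofReal (1 / 2)) := by
  have h1 : ∀ s ∈ Ioo (2 * ρ) 1, ENNReal.ofReal (2 * Real.pi * s) *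
      ENNReal.ofReal (C * (s ^ 3)⁻¹ * (s ^ (1 + α) + ρ)) =
      ENNReal.ofReal (2 * Real.pi * C) *
        (ENNReal.ofReal (s ^ (α - 1)) + ENNReal.ofReal ρ * ENNReal.ofReal (s ^ (-2 : ℝ))) := by
    intro s hs
    have hs0 : 0 < s := by linarith [hs.1]
    have hpi := Real.pi_pos
    have e1 : s ^ (1 + α) = s ^ 2 * s ^ (α - 1) := by
      have : (1 + α) = (2 : ℕ) + (α - 1) := by push_cast; ring
      rw [this, Real.rpow_add hs0, Real.rpow_natCast]
    have e2 : s ^ (-2 : ℝ) = (s ^ 2)⁻¹ := by
      have : (-2 : ℝ) = -((2 : ℕ) : ℝ) := by norm_num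
      rw [this, Real.rpow_neg hs0.le, Real.rpow_natCast]
    have hr1 : 0 ≤ s ^ (α - 1) := Real.rpow_nonneg hs0.le _
    have hr2 : 0 ≤ s ^ (-2 : ℝ) := Real.rpow_nonneg hs0.le _
    rw [← ENNReal.ofReal_mul (by positivity), ← ENNReal.ofReal_mul hρ.le,
      ← ENNReal.ofReal_add hr1 (by positivity), ← ENNReal.ofReal_mul (by positivity)]
    congr 1
    rw [e1, e2]
    field_simp
  rw [setLIntegral_congr_fun measurableSet_Ioo h1]
  have hm1 : Measurable (fun s : ℝ => ENNReal.ofReal (s ^ (α - 1))) :=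
    ENNReal.measurable_ofReal.comp (measurable_id.pow_const _)
  rw [lintegral_const_mul' _ _ ENNReal.ofReal_ne_top, lintegral_add_left hm1,
    lintegral_const_mul' _ _ ENNReal.ofReal_ne_top]
  refine mul_le_mul_right ?_ _
  refine add_le_add ?_ ?_
  · rw [← lint_rpow hα]
    exact lintegral_mono_set (Ioo_subset_Ioo_left (by linarith))
  · have h3 : ∫⁻ s in Ioo (2 * ρ) 1, ENNReal.ofReal (s ^ (-2 : ℝ)) ≤
        ENNReal.ofReal (1 / (2 * ρ)) := by
      rw [← lint_inv_sq (by linarith : (0 : ℝ) < 2 * ρ)]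
      exact lintegral_mono_set Ioo_subset_Ioi_self
    calc ENNReal.ofReal ρ * ∫⁻ s in Ioo (2 * ρ) 1, ENNReal.ofReal (s ^ (-2 : ℝ))
        ≤ ENNReal.ofReal ρ * ENNReal.ofReal (1 / (2 * ρ)) := mul_le_mul_right h3 _
      _ = ENNReal.ofReal (1 / 2) := by
          rw [← ENNReal.ofReal_mul hρ.le]
          congr 1
          field_simp

theorem pf_IN1 (hPOL : T_POL) : T_IN1 := by
  intro d α C hα _
  set C' : ℝ := max C 0 with hC'
  have hC0 : 0 ≤ C' := le_max_right _ _
  set K : ENNReal := ENNReal.ofReal (2 * Real.pi * C') *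
    (ENNReal.ofReal (1 / α) + ENNReal.ofReal (1 / 2)) with hK
  have hKfin : K ≠ ⊤ :=
    ENNReal.mul_ne_top ENNReal.ofReal_ne_top
      (ENNReal.add_ne_top.2 ⟨ENNReal.ofReal_ne_top, ENNReal.ofReal_ne_top⟩)
  have hvol : volume (ball (0 : E d) 1) ≠ ⊤ := measure_ball_lt_top.ne
  refine ⟨(K * volume (ball (0 : E d) 1)).toReal, ENNReal.toReal_nonneg, ?_⟩
  intro r W hr hr1 _ _ hWb
  rw [ENNReal.ofReal_toReal (ENNReal.mul_ne_top hKfin hvol)]
  set A : Set (ℝ × E d) := {p | ‖p.2‖ < 1 ∧ 2 * r p.2 < p.1 ∧ p.1 < 1} with hA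
  have hAm : MeasurableSet A := by
    have h1 : IsOpen A := by
      have h2 : IsOpen {p : ℝ × E d | ‖p.2‖ < 1} :=
        isOpen_lt (continuous_norm.comp continuous_snd) continuous_const
      have h3 : IsOpen {p : ℝ × E d | 2 * r p.2 < p.1} :=
        isOpen_lt (continuous_const.mul (hr.comp continuous_snd)) continuous_fst
      have h4 : IsOpen {p : ℝ × E d | p.1 < 1} := isOpen_lt continuous_fst continuous_const
      exact h2.inter (h3.inter h4)
    exact h1.measurableSet
  set f : ℝ × E d → ENNReal := A.indicator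
    (fun p => ENNReal.ofReal (C' * (p.1 ^ 3)⁻¹ * (p.1 ^ (1 + α) + r p.2))) with hf
  have hfm : Measurable f := by
    refine Measurable.indicator ?_ hAm
    refine ENNReal.measurable_ofReal.comp ?_
    exact ((measurable_fst.pow_const 3).inv.const_mul C').mul
      ((measurable_fst.pow_const _).add (hr.measurable.comp measurable_snd))
  have hSm : MeasurableSet {x : E (d + 2) | x ∈ ball (0 : E (d + 2)) 1 ∧
      2 * r (zp x) < rho x} := by
    have h1 : IsOpen {x : E (d + 2) | 2 * r (zp x) < rho x} :=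
      isOpen_lt (continuous_const.mul (hr.comp continuous_zp)) continuous_rho
    exact (isOpen_ball.inter h1).measurableSet
  calc ∫⁻ x in {x | x ∈ ball (0 : E (d + 2)) 1 ∧ 2 * r (zp x) < rho x},
        ENNReal.ofReal ((rho x ^ 2 * W (rho x, zp x))⁻¹)
      ≤ ∫⁻ x in {x | x ∈ ball (0 : E (d + 2)) 1 ∧ 2 * r (zp x) < rho x}, f (rho x, zp x) := by
        refine setLIntegral_mono' hSm fun x hx => ?_
        have hx1 : ‖x‖ < 1 := mem_ball_zero_iff.1 hx.1
        have hsp := norm_sq_split x
        have hx2 : ‖x‖ ^ 2 < 1 := by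
          have := norm_nonneg x
          nlinarith
        have hrn := rho_nonneg x
        have hzn := norm_nonneg (zp x)
        have hρ1 : rho x < 1 := by
          by_contra h
          push Not at h
          nlinarith [sq_nonneg ‖zp x‖]
        have hz1 : ‖zp x‖ < 1 := by
          by_contra h
          push Not at h
          nlinarith [sq_nonneg (rho x)]
        have hmem : ((rho x, zp x) : ℝ × E d) ∈ A := ⟨hz1, hx.2, hρ1⟩
        rw [hf, indicator_of_mem hmem]
        refine ENNReal.ofReal_le_ofReal ?_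
        refine (hWb (zp x) (rho x) hx.2 hρ1).trans ?_
        have hρ0 : 0 < rho x := by
          have := (hr1 (zp x)).1
          linarith [hx.2]
        have h5 : 0 ≤ (rho x ^ 3)⁻¹ * (rho x ^ (1 + α) + r (zp x)) := by
          have h6 := (hr1 (zp x)).1
          have h7 : 0 ≤ rho x ^ (1 + α) := Real.rpow_nonneg hρ0.le _
          positivity
        calc C * (rho x ^ 3)⁻¹ * (rho x ^ (1 + α) + r (zp x))
            = C * ((rho x ^ 3)⁻¹ * (rho x ^ (1 + α) + r (zp x))) := by ring
          _ ≤ C' * ((rho x ^ 3)⁻¹ * (rho x ^ (1 + α) + r (zp x))) :=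
              mul_le_mul_of_nonneg_right (le_max_left _ _) h5
          _ = _ := by ring
    _ ≤ ∫⁻ x : E (d + 2), f (rho x, zp x) := setLIntegral_le_lintegral _ _
    _ = ∫⁻ z : E d, ∫⁻ s in Ioi (0 : ℝ), ENNReal.ofReal (2 * Real.pi * s) * f (s, z) :=
        hPOL d f hfm
    _ ≤ ∫⁻ z : E d, (ball (0 : E d) 1).indicator (fun _ => K) z := by
        refine lintegral_mono fun z => ?_
        by_cases hz : z ∈ ball (0 : E d) 1
        · rw [indicator_of_mem hz]
          have hz1 : ‖z‖ < 1 := mem_ball_zero_iff.1 hz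
          have hpos := (hr1 z).1
          have h1 : ∫⁻ s in Ioi (0 : ℝ), ENNReal.ofReal (2 * Real.pi * s) * f (s, z) =
              ∫⁻ s in Ioo (2 * r z) 1, ENNReal.ofReal (2 * Real.pi * s) *
                ENNReal.ofReal (C' * (s ^ 3)⁻¹ * (s ^ (1 + α) + r z)) := by
            have h2 : ∀ s : ℝ, ENNReal.ofReal (2 * Real.pi * s) * f (s, z) =
                (Ioo (2 * r z) 1).indicator (fun s => ENNReal.ofReal (2 * Real.pi * s) *
                  ENNReal.ofReal (C' * (s ^ 3)⁻¹ * (s ^ (1 + α) + r z))) s := by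
              intro s
              by_cases hs : s ∈ Ioo (2 * r z) 1
              · have hmem : ((s, z) : ℝ × E d) ∈ A := ⟨hz1, hs.1, hs.2⟩
                rw [indicator_of_mem hs, hf, indicator_of_mem hmem]
              · have hmem : ((s, z) : ℝ × E d) ∉ A := fun h => hs ⟨h.2.1, h.2.2⟩
                rw [indicator_of_notMem hs, hf, indicator_of_notMem hmem, mul_zero]
            simp only [h2]
            rw [setLIntegral_indicator measurableSet_Ioo]
            congr 2
            ext s
            constructor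
            · exact fun h => h.1
            · exact fun h => ⟨h, by
                have := h.1
                show (0 : ℝ) < s
                linarith⟩
          rw [h1]
          exact inner_bound hα hC0 hpos
        · rw [indicator_of_notMem hz]
          have h2 : ∀ s : ℝ, ENNReal.ofReal (2 * Real.pi * s) * f (s, z) = 0 := by
            intro s
            have hmem : ((s, z) : ℝ × E d) ∉ A := fun h => hz (mem_ball_zero_iff.2 h.1)
            rw [hf, indicator_of_notMem hmem, mul_zero]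
          simp only [h2, lintegral_zero, le_refl]
    _ = K * volume (ball (0 : E d) 1) := by
        rw [lintegral_indicator measurableSet_ball, setLIntegral_const]

end Pool.Agent.H2.SN
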